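import Mathlib

/-!
# The lazy cop number of graphs with large maximum degree (MP_9f93d5_co, Q1)

The statement `Δ(G) ≥ n - k²` implies `c_L(G) ≤ k` fails for every `k ≥ 647` and every `n ≥ k²`.

Let `H` be the Hamming graph on the triples with entries in a set of `q` symbols (two triples are
adjacent if they differ in exactly one place). If there are fewer than `(t + 1) (q - 2 t)` cops then the
robber keeps to vertices `v` such that no cop agrees with `v` in two places and for each place at most
`t` cops agree with `v` in that place. When a cop moves in the direction `j` and destroys this,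
the robber moves in the direction `j`: at most `2 t` symbols are forbidden since a cop would be
adjacent, and at most `q - 2 t - 1` symbols since more than `t` cops use them in the place `j`.
With `q = 4 t + 2` this gives `c_L(H) ≥ 2 (t + 1)²`, which is much larger than `q ^ (3/2)`.
A star is attached to `H` to get graphs of all orders.
-/

set_option autoImplicit false

namespace Pool.Agent.Results.MP_9f93d5_co.HammingGraphs

/-- A turn of the lazy cops: at most one cop moves, to an adjacent vertex; the others stay put.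
`C i` is the position of the cop `i` before the turn and `C' i` its position after the turn. -/
def LazyStep {V : Type} (G : SimpleGraph V) {m : ℕ} (C C' : Fin m → V) : Prop :=
  C' = C ∨ ∃ (i : Fin m) (w : V), G.Adj (C i) w ∧ C' = Function.update C i w

/-- The sequences of positions `r 0, r 1, ...` a robber may take: in each of his turns he moves to an
adjacent vertex or stays. -/
def RobberPlay {V : Type} (G : SimpleGraph V) (r : ℕ → V) : Prop :=
  ∀ t, r (t + 1) = r t ∨ G.Adj (r t) (r (t + 1))

/-- The first `t` positions `[r 0, ..., r (t - 1)]` of the robber. -/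
def hist {V : Type} (r : ℕ → V) (t : ℕ) : List V := (List.range t).map r

/-- `m` lazy cops have a strategy that wins against every play of the robber. A strategy is a map `σ`
from the list of the robber's positions so far to the positions of the cops: `σ []` is the initial
placement of the cops, then the robber chooses `r 0`, the cops move to `σ [r 0]`, the robber moves to
`r 1`, the cops move to `σ [r 0, r 1]`, and so on. All turns of the cops have to be legal, and at some moment
a cop has to occupy the vertex of the robber (after a turn of the robber or after a turn of the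
cops). -/
def CopsWin {V : Type} (G : SimpleGraph V) (m : ℕ) : Prop :=
  ∃ σ : List V → Fin m → V, ∀ r : ℕ → V, RobberPlay G r →
    (∀ t, LazyStep G (σ (hist r t)) (σ (hist r (t + 1)))) ∧
    ∃ t, ∃ i, σ (hist r t) i = r t ∨ σ (hist r (t + 1)) i = r t

/-- The lazy cop number: the least number of lazy cops that have a winning strategy. -/
noncomputable def lazyCopNumber {V : Type} (G : SimpleGraph V) : ℕ := sInf {m | CopsWin G m}

/-! ### Evasion from an invariant -/

open Classical in
/-- the reply of the robber -/
noncomputable def reply {V : Type} (G : SimpleGraph V) {m : ℕ} (Safe : (Fin m → V) → V → Prop)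
    (C : Fin m → V) (v : V) : V :=
  if h : ∃ v', (v' = v ∨ G.Adj v v') ∧ Safe C v' then h.choose else v

/-- the list of the earlier positions and the present position of the robber -/
noncomputable def state {V : Type} (G : SimpleGraph V) {m : ℕ} (Safe : (Fin m → V) → V → Prop)
    (σ : List V → Fin m → V) (v₀ : V) : ℕ → List V × V
  | 0 => ([], v₀)
  | t + 1 =>
    ((state G Safe σ v₀ t).1 ++ [(state G Safe σ v₀ t).2],
      reply G Safe (σ ((state G Safe σ v₀ t).1 ++ [(state G Safe σ v₀ t).2]))
        (state G Safe σ v₀ t).2)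

theorem not_copsWin {V : Type} (G : SimpleGraph V) {m : ℕ} (Safe : (Fin m → V) → V → Prop)
    (h0 : ∀ C, ∃ v, Safe C v)
    (h1 : ∀ C v, Safe C v → ∀ C', LazyStep G C C' → (∀ i, C' i ≠ v) ∧
      ∃ v', (v' = v ∨ G.Adj v v') ∧ Safe C' v') : ¬ CopsWin G m := by
  rintro ⟨σ, hσ⟩
  obtain ⟨v₀, hv₀⟩ := h0 (σ [])
  let r : ℕ → V := fun t => (state G Safe σ v₀ t).2
  have hhist : ∀ t, (state G Safe σ v₀ t).1 = hist r t := by
    intro t
    induction t with
    | zero => rfl
    | succ t ih =>
      show (state G Safe σ v₀ t).1 ++ [r t] = hist r (t + 1)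
      rw [ih, hist, hist, List.range_succ, List.map_append]
      rfl
  have hr : ∀ t, r (t + 1) = reply G Safe (σ (hist r (t + 1))) (r t) := by
    intro t
    show reply G Safe (σ ((state G Safe σ v₀ t).1 ++ [(state G Safe σ v₀ t).2]))
        (state G Safe σ v₀ t).2 = _
    rw [← hhist (t + 1)]
    rfl
  have hplay : RobberPlay G r := by
    intro t
    rw [hr t]
    unfold reply
    split_ifs with h
    · exact h.choose_spec.1
    · exact Or.inl rfl
  obtain ⟨hlegal, t, i, hcap⟩ := hσ r hplay
  have hsafe : ∀ t, Safe (σ (hist r t)) (r t) := by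
    intro t
    induction t with
    | zero => exact hv₀
    | succ t ih =>
      have h := (h1 _ _ ih _ (hlegal t)).2
      rw [hr t]
      unfold reply
      rw [dif_pos h]
      exact h.choose_spec.2
  rcases hcap with hcap | hcap
  · exact (h1 _ _ (hsafe t) _ (Or.inl rfl)).1 i hcap
  · exact (h1 _ _ (hsafe t) _ (hlegal t)).1 i hcap

theorem copsWin_card {V : Type} [Fintype V] (G : SimpleGraph V) : CopsWin G (Fintype.card V) := by
  refine ⟨fun _ => (Fintype.equivFin V).symm, fun r _ => ⟨fun t => Or.inl rfl, 0, Fintype.equivFin V (r 0), Or.inl ?_⟩⟩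
  simp

/-! ### The Hamming graph -/

/-- The Hamming graph on triples: two triples are adjacent if they differ in exactly one place. -/
def hamming (q : ℕ) : SimpleGraph (Fin 3 → Fin q) where
  Adj v w := ∃ j, v j ≠ w j ∧ ∀ a, a ≠ j → v a = w a
  symm := ⟨by
    rintro v w ⟨j, h1, h2⟩
    exact ⟨j, h1.symm, fun a ha => (h2 a ha).symm⟩⟩
  loopless := ⟨by
    rintro v ⟨j, h1, _⟩
    exact h1 rfl⟩

/-- The invariant of the robber. -/
def Safe (q t : ℕ) {m : ℕ} (C : Fin m → Fin 3 → Fin q) (v : Fin 3 → Fin q) : Prop :=
  (∀ i a b, a ≠ b → C i a = v a → C i b ≠ v b) ∧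
    ∀ j, (Finset.univ.filter (fun i => C i j = v j)).card ≤ t

/-- there is a good symbol in the place `j` -/
theorem exists_symbol {q t m : ℕ} (hm : m < (t + 1) * (q - 2 * t)) (C : Fin m → Fin 3 → Fin q)
    (j : Fin 3) (A B : Finset (Fin m)) (hA : A.card ≤ t) (hB : B.card ≤ t) :
    ∃ x : Fin q, (∀ i ∈ A, C i j ≠ x) ∧ (∀ i ∈ B, C i j ≠ x) ∧
      (Finset.univ.filter (fun i => C i j = x)).card ≤ t := by
  classical
  by_contra hcon
  push Not at hcon
  let heavy : Finset (Fin q) :=
    Finset.univ.filter (fun x => t + 1 ≤ (Finset.univ.filter (fun i => C i j = x)).card)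
  have hheavy : heavy.card * (t + 1) ≤ m := by
    have h1 : heavy.card * (t + 1) ≤
        ∑ x ∈ heavy, (Finset.univ.filter (fun i => C i j = x)).card := by
      rw [← smul_eq_mul]
      apply Finset.card_nsmul_le_sum
      intro x hx
      exact (Finset.mem_filter.1 hx).2
    have h2 : ∑ x ∈ heavy, (Finset.univ.filter (fun i => C i j = x)).card ≤
        ∑ x : Fin q, (Finset.univ.filter (fun i => C i j = x)).card :=
      Finset.sum_le_sum_of_subset (Finset.subset_univ _)
    have h3 : ∑ x : Fin q, (Finset.univ.filter (fun i => C i j = x)).card = m := by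
      have := Finset.card_eq_sum_card_fiberwise (f := fun i : Fin m => C i j)
        (s := Finset.univ) (t := Finset.univ) (fun _ _ => Finset.mem_univ _)
      rw [Finset.card_univ, Fintype.card_fin] at this
      exact this.symm
    omega
  have hcover : (Finset.univ : Finset (Fin q)) ⊆
      (A.image (fun i => C i j) ∪ B.image (fun i => C i j)) ∪ heavy := by
    intro x _
    by_cases ha : ∀ i ∈ A, C i j ≠ x
    · by_cases hb : ∀ i ∈ B, C i j ≠ x
      · have := hcon x ha hb
        exact Finset.mem_union_right _ (Finset.mem_filter.2 ⟨Finset.mem_univ _, this⟩)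
      · push Not at hb
        obtain ⟨i, hi, hx⟩ := hb
        exact Finset.mem_union_left _ (Finset.mem_union_right _ (Finset.mem_image.2 ⟨i, hi, hx⟩))
    · push Not at ha
      obtain ⟨i, hi, hx⟩ := ha
      exact Finset.mem_union_left _ (Finset.mem_union_left _ (Finset.mem_image.2 ⟨i, hi, hx⟩))
  have hq := Finset.card_le_card hcover
  rw [Finset.card_univ, Fintype.card_fin] at hq
  have h1 := Finset.card_union_le (A.image (fun i => C i j) ∪ B.image (fun i => C i j)) heavy
  have h2 := Finset.card_union_le (A.image (fun i => C i j)) (B.image (fun i => C i j))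
  have h3 : (A.image (fun i => C i j)).card ≤ A.card := Finset.card_image_le
  have h4 : (B.image (fun i => C i j)).card ≤ B.card := Finset.card_image_le
  have h5 : q - 2 * t ≤ heavy.card := by omega
  have h6 : (q - 2 * t) * (t + 1) ≤ heavy.card * (t + 1) := Nat.mul_le_mul_right _ h5
  have h7 : (t + 1) * (q - 2 * t) = (q - 2 * t) * (t + 1) := Nat.mul_comm _ _
  omega

theorem safe_exists {q t m : ℕ} (hm : m < (t + 1) * (q - 2 * t)) (C : Fin m → Fin 3 → Fin q) :
    ∃ v, Safe q t C v := by
  obtain ⟨x, -, -, hx⟩ := exists_symbol hm C 0 ∅ ∅ (by simp) (by simp)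
  obtain ⟨y, hy1, -, hy⟩ := exists_symbol hm C 1 (Finset.univ.filter (fun i => C i 0 = x)) ∅ hx (by simp)
  obtain ⟨z, hz1, hz2, hz⟩ := exists_symbol hm C 2 (Finset.univ.filter (fun i => C i 0 = x))
    (Finset.univ.filter (fun i => C i 1 = y)) hx hy
  refine ⟨![x, y, z], ?_, ?_⟩
  · intro i a b hab ha hb
    have k1 : C i 0 = x → C i 1 ≠ y := fun h => hy1 i (Finset.mem_filter.2 ⟨Finset.mem_univ _, h⟩)
    have k2 : C i 0 = x → C i 2 ≠ z := fun h => hz1 i (Finset.mem_filter.2 ⟨Finset.mem_univ _, h⟩)
    have k3 : C i 1 = y → C i 2 ≠ z := fun h => hz2 i (Finset.mem_filter.2 ⟨Finset.mem_univ _, h⟩)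
    fin_cases a <;> fin_cases b
    · exact hab rfl
    · exact k1 ha hb
    · exact k2 ha hb
    · exact k1 hb ha
    · exact hab rfl
    · exact k3 ha hb
    · exact k2 hb ha
    · exact k3 hb ha
    · exact hab rfl
  · intro j
    fin_cases j
    · exact hx
    · exact hy
    · exact hz

theorem safe_step {q t m : ℕ} (hm : m < (t + 1) * (q - 2 * t)) (C : Fin m → Fin 3 → Fin q)
    (v : Fin 3 → Fin q) (hs : Safe q t C v) (C' : Fin m → Fin 3 → Fin q)
    (hC' : C' = C ∨ ∃ i w, (hamming q).Adj (C i) w ∧ C' = Function.update C i w) :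
    (∀ i, C' i ≠ v) ∧ ∃ v', (v' = v ∨ (hamming q).Adj v v') ∧ Safe q t C' v' := by
  classical
  rcases hC' with rfl | ⟨i₀, w, ⟨j, hj1, hj2⟩, rfl⟩
  · refine ⟨fun i h => hs.1 i 0 1 (by decide) (by rw [h]) (by rw [h]), v, Or.inl rfl, hs⟩
  -- the other two places
  obtain ⟨a, b, haj, hbj, hab, hall⟩ : ∃ a b : Fin 3, a ≠ j ∧ b ≠ j ∧ a ≠ b ∧
      ∀ c, c ≠ j → c = a ∨ c = b := by
    fin_cases j
    · exact ⟨1, 2, by decide, by decide, by decide, by decide⟩
    · exact ⟨0, 2, by decide, by decide, by decide, by decide⟩
    · exact ⟨0, 1, by decide, by decide, by decide, by decide⟩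
  have hsame : ∀ i c, c ≠ j → Function.update C i₀ w i c = C i c := by
    intro i c hc
    by_cases hi : i = i₀
    · subst hi
      rw [Function.update_self, hj2 c hc]
    · rw [Function.update_of_ne hi]
  have hnot : ∀ i, Function.update C i₀ w i a = v a → Function.update C i₀ w i b ≠ v b := by
    intro i h1 h2
    rw [hsame i a haj] at h1
    rw [hsame i b hbj] at h2
    exact hs.1 i a b hab h1 h2
  have hcount : ∀ c, c ≠ j →
      (Finset.univ.filter (fun i => Function.update C i₀ w i c = v c)).card ≤ t := by
    intro c hc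
    simp only [hsame _ c hc]
    exact hs.2 c
  refine ⟨fun i h => hnot i (by rw [h]) (by rw [h]), ?_⟩
  obtain ⟨x, hx1, hx2, hx3⟩ := exists_symbol hm (Function.update C i₀ w) j
    (Finset.univ.filter (fun i => Function.update C i₀ w i a = v a))
    (Finset.univ.filter (fun i => Function.update C i₀ w i b = v b)) (hcount a haj) (hcount b hbj)
  refine ⟨Function.update v j x, ?_, ?_, ?_⟩
  · by_cases hx : x = v j
    · left
      rw [hx, Function.update_eq_self]
    · right
      refine ⟨j, ?_, ?_⟩
      · rw [Function.update_self]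
        exact fun h => hx h.symm
      · intro c hc
        rw [Function.update_of_ne hc]
  · intro i c d hcd h1 h2
    have k1 : ∀ c, c ≠ j → Function.update C i₀ w i c = v c → Function.update C i₀ w i j ≠ x := by
      intro c hc h
      rcases hall c hc with rfl | rfl
      · exact hx1 i (Finset.mem_filter.2 ⟨Finset.mem_univ _, h⟩)
      · exact hx2 i (Finset.mem_filter.2 ⟨Finset.mem_univ _, h⟩)
    by_cases hc : c = j
    · subst hc
      have hd : d ≠ c := fun h => hcd h.symm
      rw [Function.update_self] at h1
      rw [Function.update_of_ne hd] at h2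
      exact k1 d hd h2 h1
    · by_cases hd : d = j
      · subst hd
        rw [Function.update_self] at h2
        rw [Function.update_of_ne hc] at h1
        exact k1 c hc h1 h2
      · rw [Function.update_of_ne hc] at h1
        rw [Function.update_of_ne hd] at h2
        rcases hall c hc with rfl | rfl <;> rcases hall d hd with rfl | rfl
        · exact hcd rfl
        · exact hnot i h1 h2
        · exact hnot i h2 h1
        · exact hcd rfl
  · intro c
    by_cases hc : c = j
    · subst hc
      rw [Function.update_self]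
      exact hx3
    · rw [Function.update_of_ne hc]
      exact hcount c hc

/-! ### The Hamming graph with a star attached -/

/-- The Hamming graph together with a star with centre `none` and `r` leaves; the centre is also
adjacent to one vertex `h₀` of the Hamming graph. -/
def withStar (q r : ℕ) (h₀ : Fin 3 → Fin q) : SimpleGraph ((Fin 3 → Fin q) ⊕ Option (Fin r)) where
  Adj
    | Sum.inl v, Sum.inl w => (hamming q).Adj v w
    | Sum.inl v, Sum.inr o => v = h₀ ∧ o = none
    | Sum.inr o, Sum.inl v => v = h₀ ∧ o = none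
    | Sum.inr o, Sum.inr o' => (o = none ∧ o' ≠ none) ∨ (o ≠ none ∧ o' = none)
  symm := ⟨by
    rintro (v | o) (w | o') h
    · exact SimpleGraph.Adj.symm h
    · exact h
    · exact h
    · rcases h with ⟨h1, h2⟩ | ⟨h1, h2⟩
      · exact Or.inr ⟨h2, h1⟩
      · exact Or.inl ⟨h2, h1⟩⟩
  loopless := ⟨by
    rintro (v | o) h
    · exact (hamming q).loopless.irrefl v h
    · rcases h with ⟨h1, h2⟩ | ⟨h1, h2⟩
      · exact h2 h1
      · exact h1 h2⟩

/-- the retraction onto the Hamming graph -/
def proj {q r : ℕ} (h₀ : Fin 3 → Fin q) : (Fin 3 → Fin q) ⊕ Option (Fin r) → (Fin 3 → Fin q)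
  | Sum.inl v => v
  | Sum.inr _ => h₀

theorem proj_adj {q r : ℕ} {h₀ : Fin 3 → Fin q} {x y : (Fin 3 → Fin q) ⊕ Option (Fin r)}
    (h : (withStar q r h₀).Adj x y) : proj h₀ y = proj h₀ x ∨ (hamming q).Adj (proj h₀ x) (proj h₀ y) := by
  rcases x with v | o <;> rcases y with w | o'
  · exact Or.inr h
  · left
    exact h.1.symm
  · left
    exact h.1
  · exact Or.inl rfl

theorem not_copsWin_withStar {q r t m : ℕ} (h₀ : Fin 3 → Fin q) (hm : m < (t + 1) * (q - 2 * t)) :
    ¬ CopsWin (withStar q r h₀) m := by
  refine not_copsWin _ (fun C x => ∃ v, x = Sum.inl v ∧ Safe q t (fun i => proj h₀ (C i)) v) ?_ ?_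
  · intro C
    obtain ⟨v, hv⟩ := safe_exists hm (fun i => proj h₀ (C i))
    exact ⟨Sum.inl v, v, rfl, hv⟩
  · rintro C x ⟨v, rfl, hs⟩ C' hC'
    have hstep : (fun i => proj h₀ (C' i)) = (fun i => proj h₀ (C i)) ∨
        ∃ i w, (hamming q).Adj ((fun i => proj h₀ (C i)) i) w ∧
          (fun i => proj h₀ (C' i)) = Function.update (fun i => proj h₀ (C i)) i w := by
      rcases hC' with rfl | ⟨i₀, w, hw, rfl⟩
      · exact Or.inl rfl
      · have hcomp : (fun i => proj h₀ (Function.update C i₀ w i)) =
            Function.update (fun i => proj h₀ (C i)) i₀ (proj h₀ w) := by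
          funext i
          by_cases hi : i = i₀
          · subst hi
            simp
          · simp [Function.update_of_ne hi]
        rcases proj_adj hw with h | h
        · left
          rw [hcomp, h]
          exact Function.update_eq_self (f := fun i => proj h₀ (C i)) i₀
        · right
          exact ⟨i₀, proj h₀ w, h, hcomp⟩
    obtain ⟨h1, v', h2, h3⟩ := safe_step hm _ v hs _ hstep
    refine ⟨?_, Sum.inl v', ?_, v', rfl, h3⟩
    · intro i hi
      apply h1 i
      show proj h₀ (C' i) = v
      rw [hi]
      rfl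
    · rcases h2 with rfl | h2
      · exact Or.inl rfl
      · exact Or.inr h2

theorem hamming_reachable {q : ℕ} (v w : Fin 3 → Fin q) : (hamming q).Reachable v w := by
  have step : ∀ (u : Fin 3 → Fin q) (j : Fin 3) (x : Fin q),
      (hamming q).Reachable u (Function.update u j x) := by
    intro u j x
    by_cases h : x = u j
    · rw [h, Function.update_eq_self]
    · refine SimpleGraph.Adj.reachable ⟨j, ?_, ?_⟩
      · rw [Function.update_self]
        exact fun h' => h h'.symm
      · intro a ha
        rw [Function.update_of_ne ha]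
  have h1 := step v 0 (w 0)
  have h2 := step (Function.update v 0 (w 0)) 1 (w 1)
  have h3 := step (Function.update (Function.update v 0 (w 0)) 1 (w 1)) 2 (w 2)
  have h4 : Function.update (Function.update (Function.update v 0 (w 0)) 1 (w 1)) 2 (w 2) = w := by
    funext c
    fin_cases c <;> simp [Function.update]
  rw [h4] at h3
  exact (h1.trans h2).trans h3

theorem withStar_connected {q r : ℕ} (h₀ : Fin 3 → Fin q) : (withStar q r h₀).Connected := by
  have key : ∀ x, (withStar q r h₀).Reachable x (Sum.inl h₀) := by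
    have hcen : (withStar q r h₀).Reachable (Sum.inr none) (Sum.inl h₀) :=
      SimpleGraph.Adj.reachable (show (withStar q r h₀).Adj (Sum.inr none) (Sum.inl h₀) from
        ⟨rfl, rfl⟩)
    rintro (v | o)
    · have h := hamming_reachable v h₀
      let f : hamming q →g withStar q r h₀ := ⟨Sum.inl, fun h => h⟩
      exact h.map f
    · rcases o with _ | o
      · exact hcen
      · refine SimpleGraph.Reachable.trans (SimpleGraph.Adj.reachable ?_) hcen
        exact Or.inr ⟨by simp, rfl⟩
  have : Nonempty ((Fin 3 → Fin q) ⊕ Option (Fin r)) := ⟨Sum.inl h₀⟩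
  exact ⟨fun x y => (key x).trans (key y).symm⟩

open Classical in
/-- **Answer to Q1 (negative).** For every `k ≥ 647` and every `n ≥ k²` there is a connected graph `G` with
`n` vertices, maximum degree at least `n - k²` and lazy cop number at least `k + 1`. -/
theorem result (k n : ℕ) (hk : 647 ≤ k) (hn : k ^ 2 ≤ n) :
    ∃ (V : Type) (_ : Fintype V) (G : SimpleGraph V),
      Fintype.card V = n ∧ G.Connected ∧ n ≤ G.maxDegree + k ^ 2 ∧ k + 1 ≤ lazyCopNumber G := by
  obtain ⟨b, hb⟩ : ∃ b, b = Nat.sqrt ((k + 1) / 2) := ⟨_, rfl⟩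
  have hb1 : b * b ≤ (k + 1) / 2 := by rw [hb]; exact Nat.sqrt_le _
  have hb2 : (k + 1) / 2 < (b + 1) * (b + 1) := by rw [hb]; exact Nat.lt_succ_sqrt _
  have hb3 : 18 ≤ b := by
    by_contra h
    have : b + 1 ≤ 18 := by omega
    have : (b + 1) * (b + 1) ≤ 18 * 18 := Nat.mul_le_mul this this
    omega
  obtain ⟨q, hq⟩ : ∃ q, q = 4 * b + 2 := ⟨_, rfl⟩
  have hq3 : q ^ 3 + 1 ≤ k ^ 2 := by
    have h1 : 2 * (b * b) ≤ k + 1 := by omega
    have h2 : 2 * (b * b) - 1 ≤ k := by omega
    have h3 : (2 * (b * b) - 1) ^ 2 ≤ k ^ 2 := Nat.pow_le_pow_left h2 2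
    refine le_trans ?_ h3
    obtain ⟨c, rfl⟩ : ∃ c, b = 18 + c := ⟨b - 18, by omega⟩
    obtain ⟨d, hd⟩ : ∃ d, 2 * ((18 + c) * (18 + c)) - 1 = d := ⟨_, rfl⟩
    have hd' : d + 1 = 2 * ((18 + c) * (18 + c)) := by
      have : 1 ≤ 2 * ((18 + c) * (18 + c)) := by nlinarith
      omega
    rw [hd, hq]
    have hd2 : d = 647 + 72 * c + 2 * c ^ 2 := by nlinarith
    rw [hd2]
    nlinarith [Nat.zero_le c, Nat.zero_le (c ^ 2), Nat.zero_le (c ^ 3), Nat.zero_le (c ^ 4)]
  obtain ⟨r, hr⟩ : ∃ r, n = q ^ 3 + (r + 1) := ⟨n - q ^ 3 - 1, by omega⟩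
  let h₀ : Fin 3 → Fin q := fun _ => ⟨0, by omega⟩
  have hcard : Fintype.card ((Fin 3 → Fin q) ⊕ Option (Fin r)) = n := by
    rw [Fintype.card_sum, Fintype.card_fun, Fintype.card_option, Fintype.card_fin, Fintype.card_fin,
      Fintype.card_fin, hr]
  refine ⟨(Fin 3 → Fin q) ⊕ Option (Fin r), inferInstance, withStar q r h₀, hcard,
    withStar_connected h₀, ?_, ?_⟩
  · have hdeg : r + 1 ≤ (withStar q r h₀).degree (Sum.inr none) := by
      rw [← SimpleGraph.card_neighborFinset_eq_degree]
      let f : Option (Fin r) → (Fin 3 → Fin q) ⊕ Option (Fin r) := fun o =>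
        match o with
        | none => Sum.inl h₀
        | some i => Sum.inr (some i)
      have hf : Function.Injective f := by
        rintro (_ | a) (_ | b) h
        · rfl
        · exact absurd h (by simp [f])
        · exact absurd h (by simp [f])
        · have : a = b := by simpa [f] using h
          rw [this]
      have h1 : (Finset.univ.image f).card = r + 1 := by
        rw [Finset.card_image_of_injective _ hf, Finset.card_univ, Fintype.card_option,
          Fintype.card_fin]
      rw [← h1]
      apply Finset.card_le_card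
      intro x hx
      rw [Finset.mem_image] at hx
      obtain ⟨o, -, rfl⟩ := hx
      rw [SimpleGraph.mem_neighborFinset]
      rcases o with _ | a
      · exact ⟨rfl, rfl⟩
      · exact Or.inl ⟨rfl, by simp⟩
    have := (withStar q r h₀).degree_le_maxDegree (Sum.inr none)
    omega
  · refine le_csInf ⟨_, copsWin_card _⟩ ?_
    intro m hm
    by_contra hlt
    refine not_copsWin_withStar (t := b) h₀ ?_ hm
    have e1 : q - 2 * b = 2 * (b + 1) := by omega
    rw [e1]
    have e2 : (b + 1) * (2 * (b + 1)) = 2 * ((b + 1) * (b + 1)) := by ring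
    rw [e2]
    omega

end Pool.Agent.Results.MP_9f93d5_co.HammingGraphs
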